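import Pool.Agent.Q28.SK.Main

/-!
# Beilinson's conjecture for singular K3 surfaces: a criterion by dimensions

Beilinson's conjecture for the transcendental part of a singular K3 surface `X` over `ℚ` (question
Q1) asks for all nonzero elements of `H³_M(X, ℚ(4))_tr`. By Deninger's theorem on Hecke characters of
imaginary quadratic fields there is an element for which the formula holds; hence Q1 for `X` means
that `H³_M(X, ℚ(4))_tr` has dimension 1, and it depends only on the newform of weight 3 attached to
`X` (Livné). The newforms with the same CM field `K` are the twists of one of them by the power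
residue symbols of rational numbers (of order `m`, the number of roots of unity of `K`). So Q1 for
all surfaces with CM field `K` follows from an assertion on one of them, `X₀`: for all rational
`d ≠ 0`, the dimension of `H³_M((X₀)_F, ℚ(4))_tr` is `m = [F : ℚ]` for `F = ℚ[t]/(t^m - d)`, as
predicted by Beilinson. If all these newforms come from singular K3 surfaces (Elkies and Schütt, for
the 65 known fields) the two are equivalent. Since there are at most 66 fields `K` (Weinberger), all
of Q1 is reduced to the dimensions of these motivic cohomology groups of at most 66 surfaces; no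
regulators and no values of L-functions are left.
-/

universe u

namespace Pool.Agent.Results.MP_870c49_nt.DimensionCriterion

open Pool.Agent.Q28.SK Module

/-- **Beilinson's conjecture for singular K3 surfaces over `ℚ`: a criterion by dimensions.** Let `T`
be the singular K3 surfaces over `ℚ` with the data described in `SingularK3`.

1. Without hypotheses: if `L'(h²_tr(X), -1) ≠ 0` then Q1 holds for `X` if and only if
  `H³_M(X, ℚ(4))_tr` is zero, or it has dimension 1 and the formula holds for one `ξ`.

Now assume `T.Facts` (published theorems).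

2. Q1 holds for `X` if and only if `dim H³_M(X, ℚ(4))_tr = 1`.
3. Q1 for `X` depends only on the newform of `X`.
4. If `dim H³_M((X₀)_F, ℚ(4))_tr = [F : ℚ]` for all `F = ℚ[t]/(t^m - d)`, `d ≠ 0` rational
  (`Dim X₀`), then Q1 holds for all `X` with the CM field of `X₀`. The converse holds if all newforms
  with this CM field come from singular K3 surfaces over `ℚ`.
5. There is a set `S` of at most 66 surfaces, one for each CM field, and for it: Q1 holds for all
  singular K3 surfaces over `ℚ` if `Dim X₀` holds for all `X₀` in `S`; the converse holds if all the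
  newforms come from singular K3 surfaces over `ℚ`. -/
theorem result (T : SingularK3.{u}) :
    (∀ X, T.L X ≠ 0 → (T.Q1 X ↔ (∀ ξ : T.V X, ξ = 0) ∨
      finrank ℚ (T.V X) = 1 ∧ ∃ (ξ : T.V X) (a : ℚ), a ≠ 0 ∧ T.reg X ξ = a * T.L X)) ∧
    (T.Facts →
      (∀ X, T.Q1 X ↔ finrank ℚ (T.V X) = 1) ∧
      (∀ X X', T.form X = T.form X' → (T.Q1 X ↔ T.Q1 X')) ∧
      (∀ X₀, (SingularK3.Dim X₀ → ∀ X, T.CM (T.form X) = T.CM (T.form X₀) → T.Q1 X) ∧
        (T.Realized (T.CM (T.form X₀)) → (∀ X, T.CM (T.form X) = T.CM (T.form X₀) → T.Q1 X) →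
          SingularK3.Dim X₀)) ∧
      ∃ S : Finset T.Surf, S.card ≤ 66 ∧
        (∀ X, ∃ X₀ ∈ S, T.CM (T.form X) = T.CM (T.form X₀)) ∧
        (∀ X₀ ∈ S, ∀ X₁ ∈ S, T.CM (T.form X₀) = T.CM (T.form X₁) → X₀ = X₁) ∧
        ((∀ X₀ ∈ S, SingularK3.Dim X₀) → ∀ X, T.Q1 X) ∧
        ((∀ D, T.Realized D) → (∀ X, T.Q1 X) → ∀ X₀ ∈ S, SingularK3.Dim X₀)) := by
  refine ⟨fun X hL => q1_iff_single hL, fun hT => ⟨hT.q1_iff, fun X X' h => ?_,
    fun X₀ => ⟨hT.q1_of_dim, hT.dim_of_q1⟩, ?_⟩⟩
  · rw [hT.q1_iff', hT.q1_iff', h]
  · obtain ⟨S, hS, h1, h2⟩ := hT.exists_finset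
    refine ⟨S, hS, h2, h1, fun h X => ?_, fun hR h X₀ _ => hT.dim_of_q1 (hR _) fun X _ => h X⟩
    obtain ⟨X₀, hX₀, hX⟩ := h2 X
    exact hT.q1_of_dim (h X₀ hX₀) X hX

end Pool.Agent.Results.MP_870c49_nt.DimensionCriterion
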